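import Mathlib
import Pool.Agent.Q233.HaarU

/-!
# MP_a4cf75_mp, Q2: `N_{t,k}(d,d_E)` is not non-increasing in `k`

For `t = 2`, `d = d_E = 2` one has `N_{2,5} > N_{2,4}`.
-/

namespace Pool.Agent.Results.MP_a4cf75_mp.NotMonotoneInK

open MeasureTheory Matrix Q233.HaarU
open scoped Kronecker

/-- The channel `Φ_V(X) = Tr_E[V (X ⊗ |0⟩⟨0|) V†]` on `d × d` matrices, `V` acting on
`ℂ^d ⊗ ℂ^{d_E}`. -/
noncomputable def chan {d dE : ℕ} [NeZero dE]
    (V : Matrix (Fin d × Fin dE) (Fin d × Fin dE) ℂ) (X : Matrix (Fin d) (Fin d) ℂ) :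
    Matrix (Fin d) (Fin d) ℂ :=
  Matrix.of fun k l => ∑ e : Fin dE,
    (V * (X ⊗ₖ Matrix.single (0 : Fin dE) (0 : Fin dE) (1 : ℂ)) * Vᴴ) (k, e) (l, e)

/-- The matrix of a linear map on `d × d` matrices in the orthonormal basis of matrix units
`E_{ij}`, indexed by pairs `(i,j)`. -/
noncomputable def superMat {d : ℕ} (Φ : Matrix (Fin d) (Fin d) ℂ → Matrix (Fin d) (Fin d) ℂ) :
    Matrix (Fin d × Fin d) (Fin d × Fin d) ℂ :=
  Matrix.of fun p q => Φ (Matrix.single q.1 q.2 1) p.1 p.2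

/-- The matrix of the `t`-th order moment operator `𝔼 Φ^{⊗t}` of the ensemble `cHaar(d,d_E)`,
in the product basis of matrix units of `M_d^{⊗t}`; `haar` is the Haar probability measure. -/
noncomputable def moment (d dE t : ℕ) [NeZero dE] :
    Matrix (Fin t → Fin d × Fin d) (Fin t → Fin d × Fin d) ℂ :=
  Matrix.of fun p q => ∫ V : Matrix.unitaryGroup (Fin d × Fin dE) ℂ,
    ∏ s : Fin t, superMat (chan (V : Matrix (Fin d × Fin dE) (Fin d × Fin dE) ℂ)) (p s) (q s)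
    ∂(haar (Fin d × Fin dE))

/-- `N_{t,k}(d,d_E)`: the squared Hilbert-Schmidt norm of the `k`-th power of the moment
operator. -/
noncomputable def N (d dE t k : ℕ) [NeZero dE] : ℝ :=
  (Matrix.trace ((moment d dE t ^ k)ᴴ * moment d dE t ^ k)).re

/-! ### The second moment operator for `d = d_E = 2` -/

/-- The two spanning vectors of the range. -/
noncomputable def vv : Matrix (Fin 2 → Fin 2 × Fin 2) (Fin 2) ℂ :=
  Matrix.of fun p i => if i = 0 then (if (p 0).1 = (p 0).2 ∧ (p 1).1 = (p 1).2 then 1 else 0)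
    else (if (p 0).1 = (p 1).2 ∧ (p 1).1 = (p 0).2 then 1 else 0)

/-- The coefficient matrix. -/
noncomputable def AA : Matrix (Fin 2) (Fin 2) ℂ := !![8/30, -2/30; -1/30, 4/30]

/-- The Gram matrix. -/
noncomputable def GG : Matrix (Fin 2) (Fin 2) ℂ := !![4, 2; 2, 4]

lemma superMat_chan {d dE : ℕ} [NeZero dE] (V : Matrix (Fin d × Fin dE) (Fin d × Fin dE) ℂ)
    (p q : Fin d × Fin d) :
    superMat (chan V) p q = ∑ e : Fin dE, V (p.1, e) (q.1, 0) * star (V (p.2, e) (q.2, 0)) := by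
  simp only [superMat, chan, Matrix.of_apply]
  apply Finset.sum_congr rfl
  intro e _
  rw [Matrix.mul_apply, Finset.sum_eq_single (q.2, 0)]
  · rw [Matrix.mul_apply, Finset.sum_eq_single (q.1, 0)]
    · simp
    · rintro ⟨a, b⟩ _ hne
      simp only [kroneckerMap_apply, Matrix.single_apply]
      by_cases h1 : q.1 = a
      · have h2 : ¬ (0 : Fin dE) = b := fun h2 => hne (by rw [h1, h2])
        simp [h2]
      · simp [h1]
    · intro h; exact absurd (Finset.mem_univ _) h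
  · rintro ⟨a, b⟩ _ hne
    rw [Matrix.mul_apply, Finset.sum_eq_zero, zero_mul]
    rintro ⟨a', b'⟩ _
    simp only [kroneckerMap_apply, Matrix.single_apply]
    by_cases h1 : q.2 = a
    · have h2 : ¬ (0 : Fin dE) = b := fun h2 => hne (by rw [h1, h2])
      simp [h2]
    · simp [h1]
  · intro h; exact absurd (Finset.mem_univ _) h

/-- The operator `Y` on two copies. -/
noncomputable def YY (q : Fin 2 → Fin 2 × Fin 2) :
    Matrix ((Fin 2 × Fin 2) × (Fin 2 × Fin 2)) ((Fin 2 × Fin 2) × (Fin 2 × Fin 2)) ℂ :=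
  Matrix.single (((q 0).1, 0), ((q 1).1, 0)) (((q 0).2, 0), ((q 1).2, 0)) 1

lemma moment_eq_sum (p q : Fin 2 → Fin 2 × Fin 2) :
    moment 2 2 2 p q = ∑ e0 : Fin 2, ∑ e1 : Fin 2,
      ZZ (YY q) (((p 0).1, e0), ((p 1).1, e1)) (((p 0).2, e0), ((p 1).2, e1)) := by
  simp only [moment, ZZ, Matrix.of_apply]
  have h1 : ∀ V : Matrix.unitaryGroup (Fin 2 × Fin 2) ℂ,
      ∏ s : Fin 2, superMat (chan (V : Matrix (Fin 2 × Fin 2) (Fin 2 × Fin 2) ℂ)) (p s) (q s) =
      ∑ e0 : Fin 2, ∑ e1 : Fin 2,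
      tw (YY q) V (((p 0).1, e0), ((p 1).1, e1)) (((p 0).2, e0), ((p 1).2, e1)) := by
    intro V
    rw [Fin.prod_univ_two, superMat_chan, superMat_chan, Finset.sum_mul_sum]
    apply Finset.sum_congr rfl; intro e0 _
    apply Finset.sum_congr rfl; intro e1 _
    unfold tw YY
    rw [Matrix.mul_apply, Finset.sum_eq_single (((q 0).2, 0), ((q 1).2, 0))]
    · rw [Matrix.mul_single_apply_same]
      simp only [conjTranspose_apply, kroneckerMap_apply, star_mul]
      ring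
    · intro r _ hr
      rw [Matrix.mul_single_apply_of_ne _ _ _ _ _ hr, zero_mul]
    · intro h; exact absurd (Finset.mem_univ _) h
  simp only [h1]
  rw [integral_finsetSum]
  · apply Finset.sum_congr rfl; intro e0 _
    rw [integral_finsetSum]
    intro e1 _
    exact integrable_tw _ _ _
  · intro e0 _
    exact integrable_finsetSum _ (fun e1 _ => integrable_tw _ _ _)

lemma trace_one_YY (q : Fin 2 → Fin 2 × Fin 2) :
    ((1 : Matrix ((Fin 2 × Fin 2) × (Fin 2 × Fin 2)) _ ℂ) * YY q).trace = vv q 0 := by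
  rw [one_mul, YY]
  simp only [vv, Matrix.of_apply, if_true]
  by_cases h : (q 0).1 = (q 0).2 ∧ (q 1).1 = (q 1).2
  · rw [if_pos h, h.1, h.2, Matrix.trace_single_eq_same]
  · rw [if_neg h, Matrix.trace_single_eq_of_ne]
    intro h1
    apply h
    simp only [Prod.mk.injEq, and_true] at h1
    exact h1

lemma trace_FF_YY (q : Fin 2 → Fin 2 × Fin 2) :
    (FF (Fin 2 × Fin 2) * YY q).trace = vv q 1 := by
  rw [Matrix.trace_mul_comm, Matrix.trace, Finset.sum_eq_single (((q 0).1, 0), ((q 1).1, 0))]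
  · rw [diag_apply, YY, Matrix.single_mul_apply_same]
    simp only [FF, vv, Matrix.of_apply, Prod.mk.injEq, and_true, one_mul]
    rw [if_neg (by decide : ¬ (1 : Fin 2) = 0)]
    by_cases h : (q 0).1 = (q 1).2 ∧ (q 1).1 = (q 0).2
    · rw [if_pos h, if_pos ⟨h.2.symm, h.1.symm⟩]
    · rw [if_neg h, if_neg]
      rintro ⟨h1, h2⟩; exact h ⟨h2.symm, h1.symm⟩
  · intro r _ hr
    rw [diag_apply, YY, Matrix.single_mul_apply_of_ne _ _ _ _ _ hr]
  · intro h; exact absurd (Finset.mem_univ _) h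

lemma trace_FF : (FF (Fin 2 × Fin 2)).trace = 4 := by
  simp only [Matrix.trace, diag_apply, FF, Matrix.of_apply, Fintype.sum_prod_type,
    Fin.sum_univ_two, Prod.mk.injEq]
  simp
  norm_num

lemma FF_sq : FF (Fin 2 × Fin 2) * FF (Fin 2 × Fin 2) = 1 := by
  ext ⟨a, b⟩ ⟨c, e⟩
  rw [Matrix.mul_apply, Finset.sum_eq_single (b, a)]
  · simp only [FF, Matrix.of_apply, Matrix.one_apply, Prod.mk.injEq, and_self, if_true, one_mul]
    by_cases h : a = c ∧ b = e
    · rw [if_pos h, if_pos ⟨h.2, h.1⟩]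
    · rw [if_neg h, if_neg (fun h' => h ⟨h'.2, h'.1⟩)]
  · rintro ⟨r, s⟩ _ hne
    simp only [FF, Matrix.of_apply]
    rw [if_neg, zero_mul]
    rintro ⟨h1, h2⟩; exact hne (by rw [h1, h2])
  · intro h; exact absurd (Finset.mem_univ _) h

lemma trace_one16 : (1 : Matrix ((Fin 2 × Fin 2) × (Fin 2 × Fin 2))
    ((Fin 2 × Fin 2) × (Fin 2 × Fin 2)) ℂ).trace = 16 := by
  rw [Matrix.trace_one]
  simp

lemma moment_eq : moment 2 2 2 = vv * AA * vvᵀ := by
  ext p q
  obtain ⟨α, β, h⟩ := commutant (Z := ZZ (YY q)) (fun U => ZZ_comm (YY q) U)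
  have t1 := trace_ZZ (YY q) 1 (fun A => by rw [one_mul, mul_one])
  have t2 := trace_ZZ (YY q) (FF (Fin 2 × Fin 2)) kron_comm_FF
  rw [trace_one_YY, h, one_mul, trace_add, trace_smul, trace_smul, trace_FF, trace_one16] at t1
  rw [trace_FF_YY, h, mul_add, mul_smul_comm, mul_smul_comm, mul_one, FF_sq, trace_add,
    trace_smul, trace_smul, trace_FF, trace_one16] at t2
  simp only [smul_eq_mul] at t1 t2
  rw [moment_eq_sum, h]
  have h3 : ∀ e0 e1 : Fin 2, (α • (1 : Matrix ((Fin 2 × Fin 2) × (Fin 2 × Fin 2))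
      ((Fin 2 × Fin 2) × (Fin 2 × Fin 2)) ℂ) + β • FF (Fin 2 × Fin 2))
      (((p 0).1, e0), ((p 1).1, e1)) (((p 0).2, e0), ((p 1).2, e1)) =
      α * vv p 0 + β * (if e0 = e1 then vv p 1 else 0) := by
    intro e0 e1
    simp only [Matrix.add_apply, Matrix.smul_apply, smul_eq_mul, Matrix.one_apply, FF, vv,
      Matrix.of_apply, Prod.mk.injEq, and_true, if_true]
    congr 1
    rw [if_neg (by decide : ¬ (1 : Fin 2) = 0)]
    by_cases he : e0 = e1
    · subst he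
      simp only [and_true, if_true]
    · rw [if_neg he, if_neg]
      rintro ⟨⟨-, h1⟩, -⟩; exact he h1
  simp only [h3, Fin.sum_univ_two]
  simp only [Matrix.mul_apply, Fin.sum_univ_two, transpose_apply, AA]
  simp
  linear_combination (4/15 * vv p 0 - 1/30 * vv p 1 : ℂ) * t1 +
    (-1/15 * vv p 0 + 2/15 * vv p 1 : ℂ) * t2

/-- Integer version of the spanning vectors. -/
def vI (p : Fin 2 → Fin 2 × Fin 2) (i : Fin 2) : ℤ :=
  if i = 0 then (if (p 0).1 = (p 0).2 ∧ (p 1).1 = (p 1).2 then 1 else 0)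
    else (if (p 0).1 = (p 1).2 ∧ (p 1).1 = (p 0).2 then 1 else 0)

lemma vv_eq (p : Fin 2 → Fin 2 × Fin 2) (i : Fin 2) : vv p i = (vI p i : ℂ) := by
  simp only [vv, vI, Matrix.of_apply]
  split_ifs <;> simp

set_option maxRecDepth 100000 in
lemma gramI : ∀ i j : Fin 2, ∑ p : Fin 2 → Fin 2 × Fin 2, vI p i * vI p j =
    if i = j then 4 else 2 := by decide +kernel

lemma gram : vvᵀ * vv = GG := by
  ext i j
  rw [Matrix.mul_apply]
  simp only [transpose_apply, vv_eq]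
  have h := gramI i j
  have h2 : ∑ p : Fin 2 → Fin 2 × Fin 2, (vI p i : ℂ) * (vI p j : ℂ) =
      ((∑ p : Fin 2 → Fin 2 × Fin 2, vI p i * vI p j : ℤ) : ℂ) := by push_cast; rfl
  rw [h2, h]
  fin_cases i <;> fin_cases j <;> simp [GG]

lemma pow_step {k : ℕ} {C : Matrix (Fin 2) (Fin 2) ℂ} (h : moment 2 2 2 ^ k = vv * C * vvᵀ) :
    moment 2 2 2 ^ (k + 1) = vv * (C * GG * AA) * vvᵀ := by
  rw [pow_succ, h, moment_eq, ← gram]
  simp only [Matrix.mul_assoc]

lemma vv_conj : vvᴴ = vvᵀ := by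
  ext i p
  rw [conjTranspose_apply, transpose_apply, vv_eq]
  simp

lemma N_eq {k : ℕ} {C : Matrix (Fin 2) (Fin 2) ℂ} (h : moment 2 2 2 ^ k = vv * C * vvᵀ) :
    N 2 2 2 k = (Matrix.trace (Cᴴ * GG * (C * GG))).re := by
  unfold N
  rw [h, conjTranspose_mul, conjTranspose_mul]
  have h1 : (vvᵀ)ᴴ = vv := by rw [← vv_conj, conjTranspose_conjTranspose]
  rw [h1, vv_conj]
  have h2 : vv * (Cᴴ * vvᵀ) * (vv * C * vvᵀ) = vv * (Cᴴ * (vvᵀ * vv) * C * vvᵀ) := by
    simp only [Matrix.mul_assoc]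
  rw [h2, Matrix.trace_mul_comm, gram]
  have h3 : Cᴴ * GG * C * vvᵀ * vv = Cᴴ * GG * (C * (vvᵀ * vv)) := by
    simp only [Matrix.mul_assoc]
  rw [h3, gram]

lemma C1 : moment 2 2 2 ^ 1 = vv * AA * vvᵀ := by rw [pow_one, moment_eq]

lemma C2 : moment 2 2 2 ^ 2 = vv * (!![6/25, -2/75; 1/50, 4/75] : Matrix (Fin 2) (Fin 2) ℂ) * vvᵀ := by
  rw [pow_step C1]
  congr 2
  ext i j
  fin_cases i <;> fin_cases j <;> simp [AA, GG, Matrix.mul_apply, Fin.sum_univ_two] <;> norm_num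

lemma C3 : moment 2 2 2 ^ 3 = vv * (!![86/375, -4/375; 31/750, 8/375] : Matrix (Fin 2) (Fin 2) ℂ) * vvᵀ := by
  rw [pow_step C2]
  congr 2
  ext i j
  fin_cases i <;> fin_cases j <;> simp [AA, GG, Matrix.mul_apply, Fin.sum_univ_two] <;> norm_num

lemma C4 : moment 2 2 2 ^ 4 = vv * (!![422/1875, -8/1875; 187/3750, 16/1875] : Matrix (Fin 2) (Fin 2) ℂ) * vvᵀ := by
  rw [pow_step C3]
  congr 2
  ext i j
  fin_cases i <;> fin_cases j <;> simp [AA, GG, Matrix.mul_apply, Fin.sum_univ_two] <;> norm_num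

lemma C5 : moment 2 2 2 ^ 5 = vv * (!![698/3125, -16/9375; 333/6250, 32/9375] : Matrix (Fin 2) (Fin 2) ℂ) * vvᵀ := by
  rw [pow_step C4]
  congr 2
  ext i j
  fin_cases i <;> fin_cases j <;> simp [AA, GG, Matrix.mul_apply, Fin.sum_univ_two] <;> norm_num

lemma N4 : N 2 2 2 4 = 1213852/1171875 := by
  rw [N_eq C4, Matrix.trace, Fin.sum_univ_two]
  simp only [diag_apply, Matrix.mul_apply, Fin.sum_univ_two, conjTranspose_apply, GG]
  simp
  norm_num

lemma N5 : N 2 2 2 5 = 30362908/29296875 := by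
  rw [N_eq C5, Matrix.trace, Fin.sum_univ_two]
  simp only [diag_apply, Matrix.mul_apply, Fin.sum_univ_two, conjTranspose_apply, GG]
  simp
  norm_num

/-- `N_{t,k}(d,d_E)` is not non-increasing in `k`: there are `d, d_E, t ≥ 1` and
`1 ≤ k ≤ k'` with `N_{t,k'}(d,d_E) > N_{t,k}(d,d_E)`. -/
theorem result : ∃ (d dE t k k' : ℕ) (_ : NeZero dE), 1 ≤ d ∧ 1 ≤ t ∧ 1 ≤ k ∧ k ≤ k' ∧
    N d dE t k < N d dE t k' := by
  refine ⟨2, 2, 2, 4, 5, inferInstance, by norm_num, by norm_num, by norm_num, by norm_num, ?_⟩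
  have h4 : @N 2 2 2 4 _ = 1213852/1171875 := N4
  have h5 : @N 2 2 2 5 _ = 30362908/29296875 := N5
  rw [h4, h5]
  norm_num

end Pool.Agent.Results.MP_a4cf75_mp.NotMonotoneInK
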